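import Mathlib
import Pool.Agent.MP_62f0b1_an.ft.Mero4

/-!
For odd `n ≥ 5` the map `f_t` has no complete family of commuting integrals that are quotients of
real-analytic functions on the space of `n`-gons.
-/

set_option autoImplicit false

open Pool.Agent.MP_62f0b1_an

namespace Pool.Agent.Results.MP_62f0b1_an.MapMeromorphic

theorem result (n : ℕ) [NeZero n] (odd : Odd n) (hn : 5 ≤ n) (t : ℝ) (ht : 0 < t)
    (G H : Fin (n - 1) → (Fin n → ℂ) → ℝ)
    (analyticG : ∀ k, AnalyticOnNhd ℝ (G k) {P | IsPolygon P})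
    (analyticH : ∀ k, AnalyticOnNhd ℝ (H k) {P | IsPolygon P})
    (translG : ∀ k P, IsPolygon P → ∀ c : ℂ, G k (fun i => P i + c) = G k P)
    (translH : ∀ k P, IsPolygon P → ∀ c : ℂ, H k (fun i => P i + c) = H k P)
    (invariant : ∀ k P, IsPolygon P → (∀ i, 2 * t < ‖rMap t P i - rMap t P (i - 1)‖) →
      (∀ i, 2 * t < ‖qMap t P i - qMap t P (i - 1)‖) → H k (qMap t P) ≠ 0 → H k (rMap t P) ≠ 0 →
      G k (qMap t P) / H k (qMap t P) = G k (rMap t P) / H k (rMap t P))
    (commute : ∀ k l P, IsPolygon P → H k P ≠ 0 → H l P ≠ 0 → ∀ v,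
      (∀ w, omegaForm v w = fderiv ℝ (fun Q => G k Q / H k Q) P w) →
      fderiv ℝ (fun Q => G l Q / H l Q) P v = 0)
    (P : Fin n → ℂ) (hP : IsPolygon P) (hH : ∀ k, H k P ≠ 0) :
    ¬ LinearIndependent ℝ fun k => fderiv ℝ (fun Q => G k Q / H k Q) P :=
  Ft.mero_dep' n odd hn t ht G H analyticG analyticH translG translH invariant commute P hP hH

end Pool.Agent.Results.MP_62f0b1_an.MapMeromorphic
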