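import Mathlib
import Pool.Agent.MP_62f0b1_an.ae.Final

set_option autoImplicit false

namespace Pool.Agent.Results.MP_62f0b1_an.NoSmoothIntegralAE

open Pool.Agent.MP_62f0b1_an MeasureTheory

/-- For triangles and every `t > 0`: let `V` be an open set of triangles, invariant under
translations and rotations, that contains an equilateral triangle of side greater than `2 t`.
If a `C¹` function `F` on `V` is translation invariant, Poisson commutes with the area `𝒜` and
is invariant under `f_t = q_t ∘ r_t⁻¹`, then `dF` is proportional to `d𝒜` on a set of positive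
Lebesgue measure.  So `f_t` has no `C¹` integral on `𝒯₃` that commutes with `𝒜` and is independent
of `𝒜` almost everywhere. -/
theorem result (t : ℝ) (ht : 0 < t) (V : Set (Fin 3 → ℂ)) (isOpen : IsOpen V)
    (rigid : ∀ P ∈ V, ∀ m ρ : ℂ, ‖ρ‖ = 1 → (fun i => m + ρ * P i) ∈ V)
    (equilateral : ∃ P ∈ V, ∃ s : ℝ, 2 * t < s ∧ ∀ i, ‖P i - P (i - 1)‖ = s)
    (F : (Fin 3 → ℂ) → ℝ) (smooth : ContDiffOn ℝ 1 F V)
    (translation : ∀ P ∈ V, ∀ c : ℂ, F (fun i => P i + c) = F P)
    (poisson : ∀ P ∈ V, ∀ v, (∀ w, omegaForm v w = fderiv ℝ multiArea P w) →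
      fderiv ℝ F P v = 0)
    (invariant : ∀ P, IsPolygon P → (∀ i, 2 * t < ‖rMap t P i - rMap t P (i - 1)‖) →
      rMap t P ∈ V → qMap t P ∈ V → F (qMap t P) = F (rMap t P)) :
    0 < volume {P | P ∈ V ∧ ∃ c : ℝ, fderiv ℝ F P = c • fderiv ℝ multiArea P} := by
  obtain ⟨P, hP, s, hs, hP'⟩ := equilateral
  exact pos_iff_ne_zero.2 (AE.main t s V F P ht hs
    ⟨isOpen, rigid, smooth, translation, poisson, invariant⟩ hP hP')

end Pool.Agent.Results.MP_62f0b1_an.NoSmoothIntegralAE
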