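import Mathlib
import Pool.Agent.MP_62f0b1_an.xi.Main

set_option autoImplicit false

namespace Pool.Agent.Results.MP_62f0b1_an.XiFlat

open Pool.Agent.MP_62f0b1_an Topology Asymptotics
open scoped ContDiff

/-- For every odd `n ≥ 5` there is an `n`-gon `Y` at which any `n - 1` smooth, translation
invariant, pairwise Poisson commuting first integrals of `ξ` are dependent to infinite order: every
maximal minor of their Jacobian matrix is `O(‖P - Y‖ ^ N)` for all `N`. -/
theorem result (n : ℕ) [NeZero n] (odd : Odd n) (hn : 5 ≤ n) :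
    ∃ Y : Fin n → ℂ, IsPolygon Y ∧ ∀ F : Fin (n - 1) → (Fin n → ℂ) → ℝ,
      (∀ k, ContDiffOn ℝ ∞ (F k) {P | IsPolygon P}) →
      (∀ k P, IsPolygon P → ∀ c : ℂ, F k (fun i => P i + c) = F k P) →
      (∀ k P, IsPolygon P → fderiv ℝ (F k) P (xiField P) = 0) →
      (∀ k l P, IsPolygon P → ∀ v, (∀ w, omegaForm v w = fderiv ℝ (F k) P w) →
        fderiv ℝ (F l) P v = 0) →
      ∀ (v : Fin (n - 1) → Fin n → ℂ) (N : ℕ),
        (fun P => (Matrix.of fun k l => fderiv ℝ (F k) P (v l)).det) =O[𝓝 Y]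
          fun P => ‖P - Y‖ ^ N := by
  obtain ⟨k, rfl⟩ : ∃ k, n = k + 2 := ⟨n - 2, by omega⟩
  exact Xi.xi_flat (Nat.odd_add_one.1 odd |> Nat.not_odd_iff_even.1) (by omega)

end Pool.Agent.Results.MP_62f0b1_an.XiFlat
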