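import Mathlib
import Pool.Agent.MP_62f0b1_an.xm.Main
import Pool.Agent.MP_62f0b1_an.xm.Ode

/-!
For odd `n ≥ 5` the vector field `ξ` has no complete family of commuting first integrals that are
quotients of real-analytic functions on the space of `n`-gons.
-/

set_option autoImplicit false

open Pool.Agent.MP_62f0b1_an

namespace Pool.Agent.Results.MP_62f0b1_an.XiMeromorphic

theorem result (n : ℕ) [NeZero n] (odd : Odd n) (hn : 5 ≤ n)
    (G H : Fin (n - 1) → (Fin n → ℂ) → ℝ)
    (analyticG : ∀ k, AnalyticOnNhd ℝ (G k) {P | IsPolygon P})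
    (analyticH : ∀ k, AnalyticOnNhd ℝ (H k) {P | IsPolygon P})
    (translG : ∀ k P, IsPolygon P → ∀ c : ℂ, G k (fun i => P i + c) = G k P)
    (translH : ∀ k P, IsPolygon P → ∀ c : ℂ, H k (fun i => P i + c) = H k P)
    (integral : ∀ k P, IsPolygon P → H k P ≠ 0 →
      fderiv ℝ (fun Q => G k Q / H k Q) P (xiField P) = 0)
    (commute : ∀ k l P, IsPolygon P → H k P ≠ 0 → H l P ≠ 0 → ∀ v,
      (∀ w, omegaForm v w = fderiv ℝ (fun Q => G k Q / H k Q) P w) →
      fderiv ℝ (fun Q => G l Q / H l Q) P v = 0)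
    (P : Fin n → ℂ) (hP : IsPolygon P) (hH : ∀ k, H k P ≠ 0) :
    ¬ LinearIndependent ℝ fun k => fderiv ℝ (fun Q => G k Q / H k Q) P :=
  Xm.xi_mero' n odd hn G H analyticG analyticH translG translH
    (fun k => Xm.flow_const (analyticG k) (analyticH k) (integral k)) commute P hP hH

end Pool.Agent.Results.MP_62f0b1_an.XiMeromorphic
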